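import Pool.Agent.MP_63af43_lc.H88.MV

set_option autoImplicit false

open Finset

namespace Pool.Agent.MP_63af43_lc.H88

/-- The sign character with values modulo three. -/
def chi (a : ZMod 2) : ZMod 3 := if a = 0 then 1 else -1

theorem chi_add (a b : ZMod 2) : chi (a + b) = chi a * chi b := by
  revert a b; decide

theorem chi_cases (a : ZMod 2) (d : ZMod 3) : d = 0 ∨ d = chi a ∨ d = - chi a := by
  revert a d; decide

/-- A one-shot encoding which is bijective on 1-inputs and covers two thirds on 0-inputs. -/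
theorem exists_enc (n : ℕ) (H2 H3 : Type) [Fintype H2] [Fintype H3]
    (u v : Fin n → H2 → ZMod 2) (α β : Fin n → H3 → ZMod 3)
    (h1 : ∀ i, ∑ s, u i s * v i s = 1) (h2 : ∀ i, ∑ s, α i s * β i s = 1)
    (h3 : ∀ i j, i ≠ j → ∑ s, u i s * v j s = 0 ∨ ∑ s, α i s * β j s = 0) :
    ∃ (Ω R Q : Type) (_ : Fintype Ω) (_ : Fintype R) (_ : Fintype Q), Nonempty R ∧ Nonempty Q ∧
      Fintype.card Ω = 3 * (2 ^ Fintype.card H2 * 3 ^ Fintype.card H3) ∧
      ∃ (a : (Fin n → Bool) → Ω → R) (b : Fin n → Ω → Q),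
        (∀ x i, x i = true → Function.Bijective fun ω => (a x ω, b i ω)) ∧
        (∀ x i, x i = false →
          3 * (Set.range fun ω => (a x ω, b i ω)).ncard ≤ 2 * Fintype.card (R × Q)) := by
  classical
  let sg : Fin n → (H2 → ZMod 2) → ZMod 3 := fun j b => chi (∑ s, b s * v j s)
  let g : (Fin n → Bool) → (H2 → ZMod 2) → H3 → ZMod 3 :=
    fun x b s => ∑ j, (if x j then sg j b else 0) * β j s
  let ip : Fin n → (H3 → ZMod 3) → ZMod 3 := fun i r => ∑ s, α i s * r s
  have ip_sub : ∀ i r r', ip i (r - r') = ip i r - ip i r' := by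
    intro i r r'
    simp only [ip, Pi.sub_apply, mul_sub, sum_sub_distrib]
  have ip_add : ∀ i r r', ip i (r + r') = ip i r + ip i r' := by
    intro i r r'
    simp only [ip, Pi.add_apply, mul_add, sum_add_distrib]
  have ip_g : ∀ i x b, ip i (g x b) = ∑ j, (if x j then sg j b else 0) * ∑ s, α i s * β j s := by
    intro i x b
    simp only [ip, g, mul_sum]
    rw [sum_comm]
    refine sum_congr rfl fun j _ => sum_congr rfl fun s _ => by ring
  have sg_add : ∀ i j b, sg j (b + u i) = sg j b * chi (∑ s, u i s * v j s) := by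
    intro i j b
    simp only [sg, Pi.add_apply, add_mul, sum_add_distrib, chi_add]
  have key : ∀ i x b, ip i (g x (b + u i)) = ip i (g x b) + (if x i then sg i b else 0) := by
    intro i x b
    rw [ip_g, ip_g, ← sub_eq_iff_eq_add', ← sum_sub_distrib, sum_eq_single i]
    · rw [h2, sg_add, h1]
      have h3' : (3 : ZMod 3) = 0 := rfl
      have hc : chi 1 = -1 := by decide
      rw [hc]
      split_ifs
      · linear_combination (-(sg i b)) * h3'
      · ring
    · intro j _ hji
      rcases h3 i j (Ne.symm hji) with h | h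
      · rw [sg_add, h]
        have hc : chi 0 = 1 := by decide
        rw [hc, mul_one, sub_self]
      · rw [h]; ring
    · intro h; exact absurd (mem_univ i) h
  have huu : ∀ i (b : H2 → ZMod 2), b + u i + u i = b := by
    intro i b
    funext s
    simp only [Pi.add_apply, add_assoc, CharTwo.add_self_eq_zero, add_zero]
  let Ω := Option Bool × (H2 → ZMod 2) × (H3 → ZMod 3)
  let a : (Fin n → Bool) → Ω → (H3 → ZMod 3) := fun x ω => g x ω.2.1 + ω.2.2
  let b : Fin n → Ω → (H2 → ZMod 2) × ZMod 3 := fun i ω =>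
    match ω.1 with
    | none => (ω.2.1 + u i, ip i ω.2.2)
    | some false => (ω.2.1, ip i ω.2.2)
    | some true => (ω.2.1, ip i ω.2.2 + sg i ω.2.1)
  have hΩ : Fintype.card Ω = 3 * (2 ^ Fintype.card H2 * 3 ^ Fintype.card H3) := by
    simp [Ω]
  have hRQ : Fintype.card ((H3 → ZMod 3) × (H2 → ZMod 2) × ZMod 3) =
      3 * (2 ^ Fintype.card H2 * 3 ^ Fintype.card H3) := by
    simp; ring
  refine ⟨Ω, H3 → ZMod 3, (H2 → ZMod 2) × ZMod 3, inferInstance, inferInstance, inferInstance,
    inferInstance, inferInstance, hΩ, a, b, ?_, ?_⟩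
  · intro x i hx
    rw [Fintype.bijective_iff_surjective_and_card]
    refine ⟨?_, hΩ.trans hRQ.symm⟩
    rintro ⟨r, b', c⟩
    rcases chi_cases (∑ s, b' s * v i s) (c - (ip i r - ip i (g x b'))) with h | h | h
    · refine ⟨(some false, b', r - g x b'), ?_⟩
      simp only [a, b, add_sub_cancel, ip_sub, Prod.mk.injEq, true_and]
      linear_combination -h
    · refine ⟨(some true, b', r - g x b'), ?_⟩
      simp only [a, b, add_sub_cancel, ip_sub, Prod.mk.injEq, true_and, sg]
      linear_combination -h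
    · refine ⟨(none, b' + u i, r - g x (b' + u i)), ?_⟩
      simp only [a, b, add_sub_cancel, ip_sub, Prod.mk.injEq, true_and, huu, key, hx, if_true, sg]
      linear_combination -h
  · intro x i hx
    let f : Bool × (H2 → ZMod 2) × (H3 → ZMod 3) → (H3 → ZMod 3) × (H2 → ZMod 2) × ZMod 3 :=
      fun ω => (a x (some ω.1, ω.2), b i (some ω.1, ω.2))
    have hsub : (Set.range fun ω => (a x ω, b i ω)) ⊆ Set.range f := by
      rintro _ ⟨⟨μ, b', r⟩, rfl⟩
      cases μ with
      | some μ => exact ⟨(μ, b', r), rfl⟩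
      | none =>
        refine ⟨(false, b' + u i, g x b' + r - g x (b' + u i)), ?_⟩
        simp only [f, a, b, add_sub_cancel, ip_sub, ip_add, key, hx, Prod.mk.injEq, true_and]
        simp
    have h4 := Set.ncard_le_ncard hsub (Set.toFinite _)
    have h5 : (Set.range f).ncard ≤ 2 * (2 ^ Fintype.card H2 * 3 ^ Fintype.card H3) := by
      rw [← Set.image_univ]
      refine (Set.ncard_image_le (Set.toFinite _)).trans ?_
      rw [Set.ncard_univ, Nat.card_eq_fintype_card]
      simp
    rw [hRQ]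
    omega

/-- Two independent copies: bijective on 1-inputs, at most half on 0-inputs. -/
theorem exists_enc2 (s n : ℕ) (hs : 2 ≤ s) (hn : n ≤ s ^ (s * s)) :
    ∃ (k1 k2 m : ℕ), 0 < k1 ∧ 0 < k2 ∧ m ≤ 2 ^ (10 * (s ^ 3) ^ (3 * (s + 1))) ∧
      ∃ (a : (Fin n → Bool) → Fin m → Fin k1) (b : Fin n → Fin m → Fin k2),
        (∀ x i, x i = true → Function.Bijective fun ω => (a x ω, b i ω)) ∧
        (∀ x i, x i = false → 2 * (Set.range fun ω => (a x ω, b i ω)).ncard ≤ k1 * k2) := by
  classical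
  obtain ⟨H2, H3, _, _, c2, c3, u, v, α, β, h1, h2, h3⟩ := exists_mv s n hs hn
  obtain ⟨Ω, R, Q, _, _, _, hR, hQ, hΩ, a, b, hbij, hsmall⟩ := exists_enc n H2 H3 u v α β h1 h2 h3
  let eΩ := Fintype.equivFin (Ω × Ω)
  let eR := Fintype.equivFin (R × R)
  let eQ := Fintype.equivFin (Q × Q)
  let e : (R × Q) × (R × Q) ≃ Fin (Fintype.card (R × R)) × Fin (Fintype.card (Q × Q)) :=
    (Equiv.prodProdProdComm R Q R Q).trans (Equiv.prodCongr eR eQ)
  have hfun : ∀ x i, (fun ω => (eR (a x (eΩ.symm ω).1, a x (eΩ.symm ω).2),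
      eQ (b i (eΩ.symm ω).1, b i (eΩ.symm ω).2))) =
      e ∘ (Prod.map (fun ω => (a x ω, b i ω)) (fun ω => (a x ω, b i ω))) ∘ eΩ.symm := by
    intro x i
    rfl
  refine ⟨Fintype.card (R × R), Fintype.card (Q × Q), Fintype.card (Ω × Ω), Fintype.card_pos,
    Fintype.card_pos, ?_, fun x ω => eR (a x (eΩ.symm ω).1, a x (eΩ.symm ω).2),
    fun i ω => eQ (b i (eΩ.symm ω).1, b i (eΩ.symm ω).2), ?_, ?_⟩
  · set N := (s ^ 3) ^ (3 * (s + 1)) with hN
    have hN1 : 1 ≤ N := Nat.one_le_pow _ _ (by positivity)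
    have e1 : 2 ^ Fintype.card H2 ≤ 2 ^ N := Nat.pow_le_pow_right (by norm_num) c2
    have e2 : 3 ^ Fintype.card H3 ≤ 2 ^ (2 * N) := by
      rw [pow_mul]
      exact (Nat.pow_le_pow_left (by norm_num) _).trans (Nat.pow_le_pow_right (by norm_num) c3)
    have e3 : 3 ≤ 2 ^ (2 * N) := by
      calc 3 ≤ 2 ^ 2 := by norm_num
        _ ≤ 2 ^ (2 * N) := Nat.pow_le_pow_right (by norm_num) (by omega)
    have e4 : Fintype.card Ω ≤ 2 ^ (5 * N) := by
      rw [hΩ, show 5 * N = 2 * N + (N + 2 * N) by ring, pow_add, pow_add]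
      exact Nat.mul_le_mul e3 (Nat.mul_le_mul e1 e2)
    rw [Fintype.card_prod, show 10 * N = 5 * N + 5 * N by ring, pow_add]
    exact Nat.mul_le_mul e4 e4
  · intro x i hx
    rw [hfun]
    exact e.bijective.comp (((hbij x i hx).prodMap (hbij x i hx)).comp eΩ.symm.bijective)
  · intro x i hx
    rw [hfun, Set.range_comp, Set.ncard_image_of_injective _ e.injective,
      eΩ.symm.surjective.range_comp, Set.range_prodMap, Set.ncard_prod]
    have h := hsmall x i hx
    simp only [Fintype.card_prod] at h ⊢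
    nlinarith [Nat.mul_le_mul h h]

end Pool.Agent.MP_63af43_lc.H88
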