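import Mathlib

set_option autoImplicit false

open Finset

namespace Pool.Agent.MP_63af43_lc.H88

/-- The indicator of a residue class modulo a prime power is a low degree function. -/
theorem exists_coeffs (p e w : ℕ) [hp : Fact p.Prime] :
    ∃ c : ℕ → ZMod p, (∀ l, p ^ e ≤ l → c l = 0) ∧
      ∀ {U : Type} [DecidableEq U] (S : Finset U),
        ∑ T ∈ S.powerset, c T.card = if (S.card : ZMod (p ^ e)) = w then 1 else 0 := by
  classical
  have : CharP (AddMonoidAlgebra (ZMod p) (ZMod (p ^ e))) p :=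
    charP_of_injective_algebraMap (algebraMap (ZMod p) _).injective p
  let g : AddMonoidAlgebra (ZMod p) (ZMod (p ^ e)) := AddMonoidAlgebra.single 1 1
  have hg : ∀ m : ℕ, g ^ m = AddMonoidAlgebra.single (m : ZMod (p ^ e)) 1 := by
    intro m
    simp [g, AddMonoidAlgebra.single_pow]
  have hX : (g - 1) ^ p ^ e = 0 := by
    rw [sub_pow_char_pow, hg, one_pow, ZMod.natCast_self]
    exact sub_self _
  let ev : AddMonoidAlgebra (ZMod p) (ZMod (p ^ e)) →+ ZMod p :=
    { toFun := fun f => f.coeff (w : ZMod (p ^ e))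
      map_zero' := by simp
      map_add' := fun a b => by simp }
  refine ⟨fun l => ev ((g - 1) ^ l), ?_, ?_⟩
  · intro l hl
    obtain ⟨j, rfl⟩ := Nat.exists_eq_add_of_le hl
    simp only [pow_add, hX, zero_mul, map_zero]
  · intro U _ S
    have h := Finset.sum_pow_mul_eq_add_pow (g - 1) 1 S
    simp only [one_pow, mul_one, sub_add_cancel] at h
    rw [← map_sum, h, hg]
    simp [ev, Finsupp.single_apply]

/-- The number of small subsets. -/
theorem card_small {U : Type} [Fintype U] [DecidableEq U] (q : ℕ) (hU : 2 ≤ Fintype.card U) :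
    Fintype.card {T : Finset U // T.card < q} ≤ Fintype.card U ^ q := by
  rw [Fintype.card_subtype]
  have h1 : (univ.filter fun T : Finset U => T.card < q) ⊆
      (range q).biUnion fun l => powersetCard l univ := by
    intro T hT
    simp only [mem_filter, mem_univ, true_and] at hT
    simp only [mem_biUnion, mem_range, mem_powersetCard, subset_univ, true_and]
    exact ⟨_, hT, rfl⟩
  refine (card_le_card h1).trans (card_biUnion_le.trans ?_)
  calc ∑ l ∈ range q, (powersetCard l (univ : Finset U)).card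
      ≤ ∑ l ∈ range q, Fintype.card U ^ l := by
        refine sum_le_sum fun l _ => ?_
        rw [card_powersetCard, card_univ]
        exact Nat.choose_le_pow _ _
    _ ≤ Fintype.card U ^ q := by
        induction q with
        | zero => simp
        | succ q ih =>
          rw [sum_range_succ, pow_succ]
          have := ih (by
            intro T hT
            simp only [mem_filter, mem_univ, true_and] at hT
            simp only [mem_biUnion, mem_range, mem_powersetCard, subset_univ, true_and]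
            exact ⟨_, hT, rfl⟩)
          nlinarith [Nat.zero_le (Fintype.card U ^ q)]

/-- Low rank factorisation of the indicator that an intersection size lies in a residue class. -/
theorem exists_factor (p e w : ℕ) [Fact p.Prime] {U I : Type} [Fintype U] [DecidableEq U]
    (S : I → Finset U) :
    ∃ (u v : I → {T : Finset U // T.card < p ^ e} → ZMod p), ∀ i j,
      ∑ s, u i s * v j s = if ((S i ∩ S j).card : ZMod (p ^ e)) = w then 1 else 0 := by
  obtain ⟨c, hc0, hc⟩ := exists_coeffs p e w
  refine ⟨fun i s => if s.1 ⊆ S i then c s.1.card else 0, fun j s => if s.1 ⊆ S j then 1 else 0,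
    fun i j => ?_⟩
  rw [← hc]
  have h1 : ∑ s : {T : Finset U // T.card < p ^ e},
      (if s.1 ⊆ S i then c s.1.card else 0) * (if s.1 ⊆ S j then 1 else 0) =
      ∑ T ∈ univ.filter (fun T : Finset U => T.card < p ^ e),
        (if T ⊆ S i ∩ S j then c T.card else 0) := by
    rw [Finset.sum_subtype (univ.filter fun T : Finset U => T.card < p ^ e)
      (p := fun T : Finset U => T.card < p ^ e) (by simp)]
    refine Finset.sum_congr rfl fun s _ => ?_
    by_cases h1 : s.1 ⊆ S i <;> by_cases h2 : s.1 ⊆ S j <;> simp [h1, h2, subset_inter_iff]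
  rw [h1, sum_filter]
  have h2 : ∑ T ∈ (S i ∩ S j).powerset, c T.card =
      ∑ T : Finset U, if T ⊆ S i ∩ S j then c T.card else 0 := by
    rw [← sum_filter]
    congr 1
    ext T
    rw [mem_powerset, mem_filter]
    simp only [mem_univ, true_and]
  rw [h2]
  refine Finset.sum_congr rfl fun T _ => ?_
  by_cases h : T.card < p ^ e
  · rw [if_pos h]
  · rw [if_neg h, hc0 _ (not_lt.mp h)]
    simp

/-- Matching vector families modulo six. -/
theorem exists_mv (s n : ℕ) (hs : 2 ≤ s) (hn : n ≤ s ^ (s * s)) :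
    ∃ (H2 H3 : Type) (_ : Fintype H2) (_ : Fintype H3),
      Fintype.card H2 ≤ (s ^ 3) ^ (3 * (s + 1)) ∧ Fintype.card H3 ≤ (s ^ 3) ^ (3 * (s + 1)) ∧
      ∃ (u v : Fin n → H2 → ZMod 2) (α β : Fin n → H3 → ZMod 3),
        (∀ i, ∑ s, u i s * v i s = 1) ∧ (∀ i, ∑ s, α i s * β i s = 1) ∧
        ∀ i j, i ≠ j → ∑ s, u i s * v j s = 0 ∨ ∑ s, α i s * β j s = 0 := by
  classical
  have : Fact (Nat.Prime 2) := ⟨Nat.prime_two⟩
  have : Fact (Nat.Prime 3) := ⟨Nat.prime_three⟩
  let U := Fin (s * s) × Fin s
  have hU : Fintype.card U = s ^ 3 := by simp [U]; ring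
  obtain ⟨φ⟩ : Nonempty (Fin n ↪ (Fin (s * s) → Fin s)) :=
    Function.Embedding.nonempty_of_card_le (by simpa using hn)
  let S : Fin n → Finset U := fun i => univ.image fun a => (a, φ i a)
  have hS : ∀ i, (S i).card = s * s := by
    intro i
    rw [card_image_of_injective _ (fun a b h => congrArg Prod.fst h)]
    simp
  have hSne : ∀ i j, i ≠ j → (S i ∩ S j).card < s * s := by
    intro i j hij
    refine lt_of_lt_of_eq ?_ (hS i)
    apply card_lt_card
    refine ⟨inter_subset_left, fun h => hij ?_⟩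
    apply φ.injective
    funext a
    have h1 : (a, φ i a) ∈ S i ∩ S j := h (mem_image_of_mem _ (mem_univ a))
    obtain ⟨b, -, hb⟩ := mem_image.mp (mem_inter.mp h1).2
    have h2 : b = a := congrArg Prod.fst hb
    have h3 : φ j b = φ i a := congrArg Prod.snd hb
    rw [← h3, h2]
  let e2 := Nat.clog 2 (s + 1)
  let e3 := Nat.clog 3 (s + 1)
  have l2 : s + 1 ≤ 2 ^ e2 := Nat.le_pow_clog (by norm_num) _
  have l3 : s + 1 ≤ 3 ^ e3 := Nat.le_pow_clog (by norm_num) _
  have u2 : 2 ^ e2 ≤ 3 * (s + 1) := by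
    have h := Nat.pow_pred_clog_lt_self (b := 2) (by norm_num) (x := s + 1) (by omega)
    have h0 : 0 < e2 := Nat.clog_pos (by norm_num) (by omega)
    have : 2 ^ e2 = 2 * 2 ^ (e2 - 1) := by rw [← pow_succ']; congr 1; omega
    rw [this]
    have h' : 2 ^ (e2 - 1) < s + 1 := h
    omega
  have u3 : 3 ^ e3 ≤ 3 * (s + 1) := by
    have h := Nat.pow_pred_clog_lt_self (b := 3) (by norm_num) (x := s + 1) (by omega)
    have h0 : 0 < e3 := Nat.clog_pos (by norm_num) (by omega)
    have : 3 ^ e3 = 3 * 3 ^ (e3 - 1) := by rw [← pow_succ']; congr 1; omega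
    rw [this]
    have h' : 3 ^ (e3 - 1) < s + 1 := h
    omega
  have hU2 : 2 ≤ Fintype.card U := by
    rw [hU]
    calc 2 ≤ 2 ^ 3 := by norm_num
      _ ≤ s ^ 3 := Nat.pow_le_pow_left hs 3
  obtain ⟨u, v, huv⟩ := exists_factor 2 e2 (s * s) S
  obtain ⟨α, β, hαβ⟩ := exists_factor 3 e3 (s * s) S
  refine ⟨{T : Finset U // T.card < 2 ^ e2}, {T : Finset U // T.card < 3 ^ e3}, inferInstance,
    inferInstance, ?_, ?_, u, v, α, β, ?_, ?_, ?_⟩
  · refine (card_small _ hU2).trans ?_
    rw [hU]
    exact Nat.pow_le_pow_right (by positivity) u2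
  · refine (card_small _ hU2).trans ?_
    rw [hU]
    exact Nat.pow_le_pow_right (by positivity) u3
  · intro i
    rw [huv, inter_self, hS, if_pos rfl]
  · intro i
    rw [hαβ, inter_self, hS, if_pos rfl]
  · intro i j hij
    rw [huv, hαβ]
    by_contra h
    push Not at h
    have h2 : ((S i ∩ S j).card : ZMod (2 ^ e2)) = (s * s : ℕ) := by
      by_contra h'
      exact h.1 (if_neg h')
    have h3 : ((S i ∩ S j).card : ZMod (3 ^ e3)) = (s * s : ℕ) := by
      by_contra h'
      exact h.2 (if_neg h')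
    have hlt := hSne i j hij
    rw [ZMod.natCast_eq_natCast_iff] at h2 h3
    have d2 : 2 ^ e2 ∣ s * s - (S i ∩ S j).card := (Nat.modEq_iff_dvd' hlt.le).mp h2
    have d3 : 3 ^ e3 ∣ s * s - (S i ∩ S j).card := (Nat.modEq_iff_dvd' hlt.le).mp h3
    have hco : Nat.Coprime (2 ^ e2) (3 ^ e3) := Nat.Coprime.pow _ _ (by norm_num)
    have hd := Nat.le_of_dvd (by omega) (hco.mul_dvd_of_dvd_of_dvd d2 d3)
    have : (s + 1) * (s + 1) ≤ 2 ^ e2 * 3 ^ e3 := Nat.mul_le_mul l2 l3
    have h4 : s * s < (s + 1) * (s + 1) := by nlinarith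
    omega

end Pool.Agent.MP_63af43_lc.H88
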