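import Mathlib

set_option autoImplicit false

namespace Pool.Agent.MP_63af43_lc.H88

theorem exists_param (n : ℕ) (hn : 17 ≤ n) :
    ∃ s : ℕ, 2 ≤ s ∧ n ≤ s ^ (s * s) ∧
      ((10 * (s ^ 3) ^ (3 * (s + 1)) : ℕ) : ℝ) ≤
        Real.exp (40 * Real.sqrt (Real.log n * Real.log (Real.log n))) := by
  classical
  have hex : ∃ s : ℕ, n ≤ s ^ (s * s) :=
    ⟨n, Nat.le_self_pow (Nat.mul_ne_zero (by omega) (by omega)) n⟩
  have hs := Nat.find_spec hex
  have hs3 : 3 ≤ Nat.find hex := by
    by_contra h
    have : Nat.find hex = 0 ∨ Nat.find hex = 1 ∨ Nat.find hex = 2 := by omega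
    rcases this with h | h | h <;> rw [h] at hs <;> norm_num at hs <;> omega
  obtain ⟨r, hr⟩ : ∃ r, Nat.find hex = r + 1 := ⟨Nat.find hex - 1, by omega⟩
  have hr2 : 2 ≤ r := by omega
  have hlt : r ^ (r * r) < n := by
    have := Nat.find_min hex (m := r) (by omega)
    omega
  rw [hr] at hs
  refine ⟨r + 1, by omega, hs, ?_⟩
  have hrR : (2 : ℝ) ≤ r := by exact_mod_cast hr2
  have hlog2 : (0.69 : ℝ) < Real.log 2 := by
    have := Real.log_two_gt_d9
    linarith
  have hlr : (0.69 : ℝ) < Real.log r := hlog2.trans_le (Real.log_le_log (by norm_num) hrR)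
  set L := Real.log n with hL
  have h1 : (r : ℝ) * r * Real.log r < L := by
    have h : ((r ^ (r * r) : ℕ) : ℝ) < n := by exact_mod_cast hlt
    have h' := Real.log_lt_log (by positivity) h
    rw [Nat.cast_pow, Real.log_pow] at h'
    exact_mod_cast h'
  have h2 : (r : ℝ) ≤ L := by nlinarith
  have h3 : Real.log r ≤ Real.log L := Real.log_le_log (by positivity) h2
  have h4 : (r : ℝ) * Real.log r ≤ Real.sqrt (L * Real.log L) := by
    apply Real.le_sqrt_of_sq_le
    have : (r * Real.log r) ^ 2 = (r * r * Real.log r) * Real.log r := by ring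
    rw [this]
    exact mul_le_mul h1.le h3 (by positivity) (by linarith)
  have h5 : Real.log (r + 1) ≤ 2 * Real.log r := by
    have : (r : ℝ) + 1 ≤ r ^ 2 := by nlinarith
    have h := Real.log_le_log (by positivity) this
    rwa [Real.log_pow] at h
  have h6 : Real.log 10 ≤ 4 * Real.log 2 := by
    have : (10 : ℝ) ≤ 2 ^ 4 := by norm_num
    have h := Real.log_le_log (by positivity) this
    rwa [Real.log_pow] at h
  have h7 : Real.log 2 ≤ Real.log r := Real.log_le_log (by norm_num) hrR
  rw [← Real.log_le_iff_le_exp (by positivity)]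
  push_cast
  rw [Real.log_mul (by norm_num) (by positivity), Real.log_pow, Real.log_pow]
  push_cast
  have h8 : 0 ≤ Real.log (r + 1) := Real.log_nonneg (by linarith)
  nlinarith [mul_le_mul_of_nonneg_left h5 (show (0 : ℝ) ≤ r + 2 by positivity)]

end Pool.Agent.MP_63af43_lc.H88
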